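import Mathlib
import Pool.Agent.H11.Iron

set_option autoImplicit false

namespace Pool.Agent.Results.MP_e3b71d_lc.Equal
open Finset Function Pool.Agent.H11.Iron

/-- the grid `{0, 1/K, ..., 1}` -/
noncomputable def val (K : ℕ) (x : Fin (K + 1)) : ℝ := (x.val : ℝ) / K

/-- a deterministic direct mechanism (`none` = no sale), individually rational and without
positive transfers -/
structure Mech (n K : ℕ) where
  f : (Fin n → Fin (K + 1)) → Option (Fin n)
  p : (Fin n → Fin (K + 1)) → Fin n → ℝ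
  ir : ∀ b i, p b i ≤ val K (b i) * (if f b = some i then 1 else 0)
  npt : ∀ b i, 0 ≤ p b i

/-- profit of player `i` with true value `x` at the bid profile `b` -/
noncomputable def profit {n K : ℕ} (M : Mech n K) (i : Fin n) (b : Fin n → Fin (K + 1))
    (x : Fin (K + 1)) : ℝ :=
  val K x * (if M.f b = some i then 1 else 0) - M.p b i

def Moral {n K : ℕ} (α : ℝ) (M : Mech n K) : Prop :=
  ∀ (v : Fin n → Fin (K + 1)) (i : Fin n) (x : Fin (K + 1)),
    0 < profit M i (update v i x) (v i) - profit M i v (v i) →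
    profit M i (update v i x) (v i) - profit M i v (v i) ≤
      α * ∑ j ∈ univ.erase i, (profit M j v (v j) - profit M j (update v i x) (v j))

/-- expected revenue under truthful reports, values independent with laws `F i` -/
noncomputable def Rev {n K : ℕ} (F : Fin n → Fin (K + 1) → ℝ) (M : Mech n K) : ℝ :=
  ∑ v : Fin n → Fin (K + 1), (∏ i, F i (v i)) * ∑ i, M.p v i

noncomputable def gg {n : ℕ} (s : Finset (Fin n)) (ψ : Fin n → ℝ) : ℝ := s.fold max 0 ψ

lemma gg_nonneg {n : ℕ} (s : Finset (Fin n)) (ψ : Fin n → ℝ) : 0 ≤ gg s ψ :=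
  (le_fold_max _).2 (Or.inl le_rfl)

lemma le_gg {n : ℕ} {s : Finset (Fin n)} (ψ : Fin n → ℝ) {j : Fin n} (hj : j ∈ s) :
    ψ j ≤ gg s ψ := (le_fold_max _).2 (Or.inr ⟨j, hj, le_rfl⟩)

lemma gg_le {n : ℕ} {s : Finset (Fin n)} {ψ : Fin n → ℝ} {c : ℝ} (h0 : 0 ≤ c)
    (h : ∀ j ∈ s, ψ j ≤ c) : gg s ψ ≤ c := (fold_max_le _).2 ⟨h0, h⟩

lemma sum_le_one {n : ℕ} (T : Fin n → ℝ) (a : Fin n) (h : ∀ j, j ≠ a → T j ≤ 0) :
    ∑ j, T j ≤ T a := by
  rw [← add_sum_erase univ T (mem_univ a)]
  have := sum_nonpos (s := univ.erase a) fun j hj => h j (mem_erase.1 hj).1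
  linarith

lemma sum_le_two {n : ℕ} (T : Fin n → ℝ) (a b : Fin n) (hab : b ≠ a)
    (h : ∀ j, j ≠ a → j ≠ b → T j ≤ 0) : ∑ j, T j ≤ T a + T b := by
  rw [← add_sum_erase univ T (mem_univ a),
    ← add_sum_erase (univ.erase a) T (mem_erase.2 ⟨hab, mem_univ b⟩)]
  have := sum_nonpos (s := (univ.erase a).erase b) fun j hj =>
    h j (mem_erase.1 (mem_erase.1 hj).2).1 (mem_erase.1 hj).1
  linarith

lemma pointwise {n : ℕ} (ψ x P : Fin n → ℝ) (hψ : ∀ i, ψ i ≤ x i) (rev : ℝ)
    (h : rev = 0 ∨ ∃ a, rev = P a ∧ P a ≤ x a ∧ ∀ i, i ≠ a → x i - P i ≤ x a - P a) :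
    rev + ∑ i, (if max (P i) (gg (univ.erase i) ψ) ≤ x i then
      ψ i - max (P i) (gg (univ.erase i) ψ) else 0) ≤ gg univ ψ := by
  set τ : Fin n → ℝ := fun i => max (P i) (gg (univ.erase i) ψ) with hτ
  set T : Fin n → ℝ := fun i => if τ i ≤ x i then ψ i - τ i else 0 with hT
  show rev + ∑ i, T i ≤ gg univ ψ
  have t1 : ∀ i, P i ≤ τ i := fun i => le_max_left _ _
  have t2 : ∀ i, gg (univ.erase i) ψ ≤ τ i := fun i => le_max_right _ _
  have t3 : ∀ i j, j ≠ i → ψ j ≤ τ i := fun i j hj =>
    (le_gg ψ (mem_erase.2 ⟨hj, mem_univ j⟩)).trans (t2 i)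
  have t4 : ∀ i, 0 ≤ τ i := fun i => (gg_nonneg _ _).trans (t2 i)
  have g0 := gg_nonneg univ ψ
  have g1 : ∀ i, ψ i ≤ gg univ ψ := fun i => le_gg ψ (mem_univ i)
  by_cases hp : ∃ i, 0 < T i
  · obtain ⟨i, hi⟩ := hp
    have hi1 : τ i ≤ x i := by
      by_contra hc
      simp only [hT, if_neg hc, lt_irrefl] at hi
    have hi2 : T i = ψ i - τ i := by simp only [hT, if_pos hi1]
    have hj : ∀ j, j ≠ i → T j ≤ 0 := fun j hj => by
      have a1 := t3 i j hj
      have a2 := t3 j i hj.symm
      simp only [hT]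
      split_ifs
      · linarith
      · exact le_rfl
    have s1 := sum_le_one T i hj
    have := g1 i
    have := t4 i
    rcases h with h | ⟨a, h1, h2, h3⟩
    · linarith
    by_cases hai : a = i
    · subst hai
      have := t1 a
      linarith
    by_cases hle : P a ≤ τ i
    · linarith
    have s2 := sum_le_two T i a hai fun j h _ => hj j h
    have b1 := h3 i (Ne.symm hai)
    have b2 := t1 i
    have b3 := hψ i
    have b4 : gg (univ.erase a) ψ ≤ x a := by
      refine gg_le (by linarith) fun j _ => ?_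
      by_cases hji : j = i
      · rw [hji]; linarith
      · have := t3 i j hji
        linarith
    have b5 : τ a ≤ x a := max_le h2 b4
    have b6 : T a = ψ a - τ a := by simp only [hT, if_pos b5]
    have := t1 a
    have := t3 i a hai
    linarith
  · push Not at hp
    rcases h with h | ⟨a, h1, h2, h3⟩
    · have := sum_nonpos (s := univ) fun j _ => hp j
      linarith
    have s1 := sum_le_one T a fun j _ => hp j
    by_cases b5 : τ a ≤ x a
    · have b6 : T a = ψ a - τ a := by simp only [hT, if_pos b5]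
      have := t1 a
      have := g1 a
      linarith
    · have b6 : T a = 0 := by simp only [hT, if_neg b5]
      have b7 : x a < gg (univ.erase a) ψ := by
        by_contra hc
        exact b5 (max_le h2 (not_lt.1 hc))
      have b8 : gg (univ.erase a) ψ ≤ gg univ ψ := gg_le g0 fun j _ => g1 j
      linarith

section
variable {n K : ℕ}

lemma val_mono : Monotone (val K) := fun x y h =>
  div_le_div_of_nonneg_right (by exact_mod_cast h) (Nat.cast_nonneg _)

lemma val_nonneg (x : Fin (K + 1)) : 0 ≤ val K x := by unfold val; positivity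

lemma val_le_one (x : Fin (K + 1)) : val K x ≤ 1 :=
  div_le_one_of_le₀ (by exact_mod_cast Nat.lt_succ_iff.1 x.2) (Nat.cast_nonneg _)

variable (M : Mech n K)

lemma p_lose {v : Fin n → Fin (K + 1)} {i : Fin n} (h : M.f v ≠ some i) : M.p v i = 0 := by
  have := M.ir v i
  rw [if_neg h, mul_zero] at this
  exact le_antisymm this (M.npt v i)

lemma pr_lose {v : Fin n → Fin (K + 1)} {i : Fin n} (h : M.f v ≠ some i) (x : Fin (K + 1)) :
    profit M i v x = 0 := by
  unfold profit
  rw [if_neg h, p_lose M h]; simp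

lemma pr_win {v : Fin n → Fin (K + 1)} {i : Fin n} (h : M.f v = some i) (x : Fin (K + 1)) :
    profit M i v x = val K x - M.p v i := by
  unfold profit
  rw [if_pos h, mul_one]

lemma p_win {v : Fin n → Fin (K + 1)} {i : Fin n} (h : M.f v = some i) :
    M.p v i ≤ val K (v i) := by
  have := M.ir v i
  rwa [if_pos h, mul_one] at this

lemma ne_some {o : Option (Fin n)} {i j : Fin n} (h : o = some i) (hj : j ≠ i) : o ≠ some j := by
  rw [h]; exact fun e => hj (Option.some_injective _ e).symm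

variable {M} {α : ℝ}

lemma same_price (hM : Moral α M) {v : Fin n → Fin (K + 1)} {i : Fin n} {x : Fin (K + 1)}
    (h1 : M.f v = some i) (h2 : M.f (update v i x) = some i) :
    M.p v i ≤ M.p (update v i x) i := by
  by_contra hc
  have h := hM v i x
  rw [pr_win M h1, pr_win M h2, sum_eq_zero, mul_zero] at h
  · have := h (by linarith)
    linarith
  · intro j hj
    rw [pr_lose M (ne_some h1 (mem_erase.1 hj).1), pr_lose M (ne_some h2 (mem_erase.1 hj).1),
      sub_zero]

lemma loser (hM : Moral α M) (h1 : α ≤ 1) {v : Fin n → Fin (K + 1)} {a i : Fin n}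
    {x : Fin (K + 1)} (hia : i ≠ a) (ha : M.f v = some a) (hi : M.f (update v i x) = some i) :
    val K (v i) - M.p (update v i x) i ≤ val K (v a) - M.p v a := by
  have h := hM v i x
  have h0 := p_win M ha
  rw [pr_lose M (ne_some ha hia), pr_win M hi, sum_eq_single a, pr_win M ha,
    pr_lose M (ne_some hi hia.symm), sub_zero, sub_zero] at h
  · by_contra hc
    have := h (by linarith)
    nlinarith
  · intro j hj hja
    rw [pr_lose M (ne_some ha hja), pr_lose M (ne_some hi (mem_erase.1 hj).1), sub_zero]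
  · intro hc
    exact absurd (mem_erase.2 ⟨hia.symm, mem_univ a⟩) hc

variable (M)

noncomputable def PL (i : Fin n) (L : Fin (K + 1) → Fin n → Fin (K + 1)) : ℝ :=
  if h : ∃ x, M.f (L x) = some i then M.p (L h.choose) i else 2

lemma line_eq (v : Fin n → Fin (K + 1)) (i : Fin n) (y : Fin (K + 1)) :
    update (update v i y) i = update v i := funext fun _ => update_idem _ _ _

variable {M}

lemma PL_win (hM : Moral α M) {v : Fin n → Fin (K + 1)} {a : Fin n} (ha : M.f v = some a) :
    PL M a (update v a) = M.p v a := by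
  have h : ∃ x, M.f (update v a x) = some a := ⟨v a, by rw [update_eq_self]; exact ha⟩
  unfold PL
  rw [dif_pos h]
  refine le_antisymm ?_ (same_price hM ha h.choose_spec)
  have := same_price hM (x := v a) h.choose_spec (by rw [update_idem, update_eq_self]; exact ha)
  rwa [update_idem, update_eq_self] at this

lemma PL_lose (hM : Moral α M) (h1 : α ≤ 1) {v : Fin n → Fin (K + 1)} {a i : Fin n}
    (hia : i ≠ a) (ha : M.f v = some a) :
    val K (v i) - PL M i (update v i) ≤ val K (v a) - M.p v a := by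
  unfold PL
  split_ifs with h
  · exact loser hM h1 hia ha h.choose_spec
  · have := p_win M ha
    have := val_le_one (v i)
    linarith

lemma upper (F : Fin n → Fin (K + 1) → ℝ) (hF : ∀ i x, 0 < F i x) (hF1 : ∀ i, ∑ x, F i x = 1)
    (ψ : Fin n → Fin (K + 1) → ℝ) (h2 : ∀ i x, ψ i x ≤ val K x)
    (h3 : ∀ i (τ : ℝ), 0 ≤ ∑ x, F i x * (if τ ≤ val K x then ψ i x - τ else 0))
    (hM : Moral α M) (h1 : α ≤ 1) :
    Rev F M ≤ ∑ v : Fin n → Fin (K + 1), (∏ i, F i (v i)) * gg univ fun j => ψ j (v j) := by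
  let τ : Fin n → (Fin n → Fin (K + 1)) → ℝ := fun i v =>
    max (PL M i (update v i)) (gg (univ.erase i) fun j => ψ j (v j))
  have hτ : ∀ i v x, τ i (update v i x) = τ i v := fun i v x => by
    simp only [τ, line_eq]
    congr 1
    exact fold_congr fun j hj => by rw [update_of_ne (mem_erase.1 hj).1]
  have hW : ∀ v : Fin n → Fin (K + 1), 0 ≤ ∏ i, F i (v i) := fun v =>
    prod_nonneg fun i _ => (hF i _).le
  have e1 : 0 ≤ ∑ v : Fin n → Fin (K + 1), (∏ i, F i (v i)) *
      ∑ i, (if τ i v ≤ val K (v i) then ψ i (v i) - τ i v else 0) := by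
    simp only [mul_sum]
    rw [sum_comm]
    refine sum_nonneg fun i _ => ?_
    rw [avg F i (hF1 i)]
    refine sum_nonneg fun v _ => mul_nonneg (hW v) ?_
    simp only [hτ, update_self]
    exact h3 i _
  refine le_trans (le_add_of_nonneg_right e1) ?_
  unfold Rev
  rw [← sum_add_distrib]
  refine sum_le_sum fun v _ => ?_
  rw [← mul_add]
  refine mul_le_mul_of_nonneg_left ?_ (hW v)
  refine pointwise (fun j => ψ j (v j)) (fun j => val K (v j)) (fun j => PL M j (update v j))
    (fun j => h2 j _) _ ?_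
  rcases hv : M.f v with _ | a
  · exact Or.inl (sum_eq_zero fun j _ => p_lose M (by rw [hv]; simp))
  · refine Or.inr ⟨a, ?_, ?_, fun i hi => ?_⟩
    · rw [PL_win hM hv]
      exact sum_eq_single a (fun j _ hj => p_lose M (ne_some hv hj)) (by simp)
    · rw [PL_win hM hv]; exact p_win M hv
    · rw [PL_win hM hv]; exact PL_lose hM h1 hi hv

def Win (y : Fin n → ℝ) (i : Fin n) : Prop :=
  0 < y i ∧ (∀ j, j < i → y j < y i) ∧ ∀ j, i < j → y j ≤ y i

lemma Win_unique {y : Fin n → ℝ} {i j : Fin n} (hi : Win y i) (hj : Win y j) : i = j := by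
  rcases lt_trichotomy i j with h | h | h
  · exact absurd (hi.2.2 j h) (not_le.2 (hj.2.1 i h))
  · exact h
  · exact absurd (hj.2.2 i h) (not_le.2 (hi.2.1 j h))

open Classical in
lemma sum_Win (y : Fin n → ℝ) : ∑ i, (if Win y i then y i else 0) = gg univ y := by
  have g1 : ∀ i, y i ≤ gg univ y := fun i => le_gg y (mem_univ i)
  rcases (le_fold_max (s := univ) (b := (0 : ℝ)) (f := y) (gg univ y)).1 le_rfl with h | h
  · rw [le_antisymm h (gg_nonneg _ _)]
    refine sum_eq_zero fun i _ => if_neg fun hw => ?_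
    have := g1 i
    have := hw.1
    linarith
  by_cases h0 : gg univ y ≤ 0
  · rw [le_antisymm h0 (gg_nonneg _ _)]
    refine sum_eq_zero fun i _ => if_neg fun hw => ?_
    have := g1 i
    have := hw.1
    linarith
  have hne : (univ.filter fun i => gg univ y ≤ y i).Nonempty := by
    obtain ⟨j, -, hj⟩ := h
    exact ⟨j, mem_filter.2 ⟨mem_univ _, hj⟩⟩
  set a := (univ.filter fun i => gg univ y ≤ y i).min' hne with ha
  have a1 : gg univ y ≤ y a := (mem_filter.1 (min'_mem _ hne)).2
  have hw : Win y a := by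
    refine ⟨by linarith, fun j hj => ?_, fun j _ => (g1 j).trans a1⟩
    by_contra hc
    have : a ≤ j := min'_le (univ.filter fun i => gg univ y ≤ y i) j
      (mem_filter.2 ⟨mem_univ _, a1.trans (not_lt.1 hc)⟩)
    exact absurd hj (not_lt.2 this)
  rw [sum_eq_single a (fun j _ hj => if_neg fun h => hj (Win_unique h hw)) (by simp), if_pos hw]
  exact le_antisymm (g1 a) a1

variable (ψ : Fin n → Fin (K + 1) → ℝ)

def WV (v : Fin n → Fin (K + 1)) (i : Fin n) : Prop := Win (fun j => ψ j (v j)) i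

open Classical in
noncomputable def cL (i : Fin n) (L : Fin (K + 1) → Fin n → Fin (K + 1)) : ℝ :=
  if h : (univ.filter fun x => WV ψ (L x) i).Nonempty then
    val K ((univ.filter fun x => WV ψ (L x) i).min' h) else 0

lemma WV_mono {v : Fin n → Fin (K + 1)} {i : Fin n} {x y : Fin (K + 1)} (h : ψ i x ≤ ψ i y)
    (hw : WV ψ (update v i x) i) : WV ψ (update v i y) i := by
  obtain ⟨a, b, c⟩ := hw
  simp only [update_self] at a b c
  refine ⟨?_, fun j hj => ?_, fun j hj => ?_⟩
  · simp only [update_self]; linarith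
  · have := b j hj
    simp only [update_self, update_of_ne hj.ne] at this ⊢
    linarith
  · have := c j hj
    simp only [update_self, update_of_ne hj.ne'] at this ⊢
    linarith

lemma line (h1 : ∀ i, Monotone (ψ i)) (v : Fin n → Fin (K + 1)) (i : Fin n) :
    (∀ x, ¬ WV ψ (update v i x) i) ∨ ∃ k, (∀ x, WV ψ (update v i x) i ↔ k ≤ x) ∧
      cL ψ i (update v i) = val K k ∧ ∀ x < k, ψ i x < ψ i k := by
  classical
  by_cases h : (univ.filter fun x => WV ψ (update v i x) i).Nonempty
  · right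
    have hk : WV ψ (update v i ((univ.filter fun x => WV ψ (update v i x) i).min' h)) i :=
      (mem_filter.1 (min'_mem _ h)).2
    have hl : ∀ x, WV ψ (update v i x) i →
        (univ.filter fun x => WV ψ (update v i x) i).min' h ≤ x := fun x hx =>
      min'_le (univ.filter fun x => WV ψ (update v i x) i) x (mem_filter.2 ⟨mem_univ _, hx⟩)
    refine ⟨_, fun x => ⟨hl x, fun hx => WV_mono ψ (h1 i hx) hk⟩, ?_, fun x hx => ?_⟩
    · unfold cL
      rw [dif_pos h]
    · by_contra hc
      exact absurd hx (not_lt.2 (hl x (WV_mono ψ (not_lt.1 hc) hk)))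
  · exact Or.inl fun x hx => h ⟨x, mem_filter.2 ⟨mem_univ _, hx⟩⟩

open Classical in
noncomputable def myf (v : Fin n → Fin (K + 1)) : Option (Fin n) :=
  if h : ∃ i, WV ψ v i then some h.choose else none

lemma myf_iff (v : Fin n → Fin (K + 1)) (i : Fin n) : myf ψ v = some i ↔ WV ψ v i := by
  unfold myf
  split_ifs with h
  · constructor
    · intro e
      rw [← Option.some_injective _ e]
      exact h.choose_spec
    · intro hw
      rw [Win_unique h.choose_spec hw]
  · exact ⟨fun e => by simp at e, fun hw => absurd ⟨i, hw⟩ h⟩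

open Classical in
noncomputable def mye (h1 : ∀ i, Monotone (ψ i)) : Mech n K where
  f := myf ψ
  p v i := if WV ψ v i then cL ψ i (update v i) else 0
  ir v i := by
    by_cases hw : WV ψ v i
    · rw [if_pos hw, if_pos ((myf_iff ψ v i).2 hw), mul_one]
      have hw' : WV ψ (update v i (v i)) i := by rw [update_eq_self]; exact hw
      rcases line ψ h1 v i with h | ⟨k, h, e, -⟩
      · exact absurd hw' (h _)
      · rw [e]; exact val_mono ((h _).1 hw')
    · rw [if_neg hw, if_neg (fun h => hw ((myf_iff ψ v i).1 h)), mul_zero]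
  npt v i := by
    split_ifs
    · unfold cL
      split_ifs
      · exact val_nonneg _
      · exact le_rfl
    · exact le_rfl

open Classical in
lemma mye_p (h1 : ∀ i, Monotone (ψ i)) (v : Fin n → Fin (K + 1)) (i : Fin n) (x : Fin (K + 1)) :
    (mye ψ h1).p (update v i x) i =
      if WV ψ (update v i x) i then cL ψ i (update v i) else 0 := by
  show (if _ then cL ψ i (update (update v i x) i) else 0) = _
  rw [line_eq]

lemma mye_truth (h1 : ∀ i, Monotone (ψ i)) (v : Fin n → Fin (K + 1)) (i : Fin n)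
    (x : Fin (K + 1)) :
    profit (mye ψ h1) i (update v i x) (v i) ≤ profit (mye ψ h1) i v (v i) := by
  have h0 : 0 ≤ profit (mye ψ h1) i v (v i) := sub_nonneg.2 ((mye ψ h1).ir v i)
  by_cases hx : WV ψ (update v i x) i
  swap
  · rw [pr_lose _ (fun h => hx ((myf_iff ψ _ i).1 h))]
    exact h0
  rw [pr_win _ ((myf_iff ψ _ i).2 hx), mye_p, if_pos hx]
  by_cases hw : WV ψ (update v i (v i)) i
  · have e := mye_p ψ h1 v i (v i)
    rw [if_pos hw, update_eq_self] at e
    rw [update_eq_self] at hw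
    rw [pr_win _ ((myf_iff ψ _ i).2 hw), e]
  · rcases line ψ h1 v i with h | ⟨k, h, e, -⟩
    · exact absurd hx (h _)
    · rw [e]
      have : val K (v i) ≤ val K k := val_mono (le_of_not_ge fun hc => hw ((h _).2 hc))
      linarith

lemma mye_rev (F : Fin n → Fin (K + 1) → ℝ) (hF1 : ∀ i, ∑ x, F i x = 1)
    (h1 : ∀ i, Monotone (ψ i))
    (h4 : ∀ i k, (∀ x < k, ψ i x < ψ i k) → ∑ x, F i x * (if k ≤ x then val K k else 0) =
      ∑ x, F i x * (if k ≤ x then ψ i x else 0)) :
    Rev F (mye ψ h1) =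
      ∑ v : Fin n → Fin (K + 1), (∏ i, F i (v i)) * gg univ fun j => ψ j (v j) := by
  classical
  unfold Rev
  simp only [← sum_Win, mul_sum]
  rw [sum_comm]
  conv_rhs => rw [sum_comm]
  refine sum_congr rfl fun i _ => ?_
  rw [avg F i (hF1 i), avg F i (hF1 i) fun v =>
    if Win (fun j => ψ j (v j)) i then ψ i (v i) else 0]
  refine sum_congr rfl fun v _ => ?_
  congr 1
  simp only [mye_p, update_self]
  show _ = ∑ x, F i x * (if WV ψ (update v i x) i then ψ i x else 0)
  rcases line ψ h1 v i with h | ⟨k, h, e, hk⟩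
  · simp only [h, if_false]
  · simp only [h, e]
    exact h4 i k hk

end

theorem result : ∀ (n K : ℕ), 1 ≤ K → ∀ F : Fin n → Fin (K + 1) → ℝ, (∀ i x, 0 < F i x) →
    (∀ i, ∑ x, F i x = 1) →
    ∃ r : ℝ, ∀ α : ℝ, 0 ≤ α → α ≤ 1 →
      IsGreatest {s | ∃ M : Mech n K, Moral α M ∧ Rev F M = s} r := by
  intro n K _ F hF hF1
  choose ψ h1 h2 h3 h4 using fun i => iron' (F i) (val K) (hF i) val_mono
  refine ⟨∑ v : Fin n → Fin (K + 1), (∏ i, F i (v i)) * gg univ fun j => ψ j (v j),
    fun α _ ha => ⟨⟨mye ψ h1, fun v i x h => ?_, mye_rev ψ F hF1 h1 h4⟩, ?_⟩⟩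
  · have := mye_truth ψ h1 v i x
    linarith
  · rintro s ⟨M, hM, rfl⟩
    exact upper F hF hF1 ψ h2 h3 hM ha

end Pool.Agent.Results.MP_e3b71d_lc.Equal
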